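import Pool.Agent.W717.UR.Stm

/-!
# UR-SM: the second moment tends to zero when there are no atoms
-/

set_option autoImplicit false

namespace Pool.Agent.W741.UR

open Pool.Agent.W717.UR Filter Topology

/-- the word property: the data `d = (t, f, s1, s2)` describe the word at position `m` -/
def PD (h : ℕ) (b : ℤ → ℤ) (w : ℕ → ℤ) (d : ℤ × ℤ × ℤ × ℤ) : Prop :=
  -(h : ℤ) ≤ d.1 ∧ d.1 ≤ 0 ∧ (d.2.1 = 0 ∨ d.2.1 = 1) ∧
    (d.2.2.1 = 1 ∨ d.2.2.1 = -1) ∧ (d.2.2.2 = 1 ∨ d.2.2.2 = -1) ∧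
    ∀ i : ℕ, i < h → w i = d.2.2.1 * b (i - d.1) + d.2.2.2 * b (i - d.1 - h - d.2.1)

open Classical in
/-- chosen data of a word -/
noncomputable def dw (h : ℕ) (b : ℤ → ℤ) (w : ℕ → ℤ) : ℤ × ℤ × ℤ × ℤ :=
  if H : ∃ d, PD h b w d then Classical.choose H else (0, 0, 1, 1)

/-- the word at position `m` -/
def wd (h : ℕ) (y : ℤ → ℤ) (m : ℤ) (i : ℕ) : ℤ := if i < h then y (m + i) else 0

noncomputable def dat (h : ℕ) (b : ℤ → ℤ) (y : ℤ → ℤ) (m : ℤ) : ℤ × ℤ × ℤ × ℤ :=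
  dw h b (wd h y m)

theorem dat_spec {h : ℕ} {b : ℤ → ℤ} {y : ℤ → ℤ} (m : ℤ)
    (hp : ∃ t f s1 s2 : ℤ, -(h : ℤ) ≤ t ∧ t ≤ 0 ∧ (f = 0 ∨ f = 1) ∧
    (s1 = 1 ∨ s1 = -1) ∧ (s2 = 1 ∨ s2 = -1) ∧
    ∀ i : ℕ, i < h → y (m + i) = s1 * b (i - t) + s2 * b (i - t - h - f)) :
    PD h b (wd h y m) (dat h b y m) := by
  obtain ⟨t, f, s1, s2, h1, h2, h3, h4, h5, h6⟩ := hp
  have H : ∃ d, PD h b (wd h y m) d := by
    refine ⟨(t, f, s1, s2), h1, h2, h3, h4, h5, ?_⟩
    intro i hi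
    rw [wd, if_pos hi]
    exact h6 i hi
  unfold dat dw
  rw [dif_pos H]
  exact Classical.choose_spec H

theorem dat_congr {h : ℕ} {b : ℤ → ℤ} {y : ℤ → ℤ} {m m' : ℤ}
    (hw : ∀ i : ℕ, i < h → y (m + i) = y (m' + i)) : dat h b y m = dat h b y m' := by
  have : wd h y m = wd h y m' := by
    funext i
    unfold wd
    by_cases hi : i < h
    · rw [if_pos hi, if_pos hi, hw i hi]
    · rw [if_neg hi, if_neg hi]
  unfold dat
  rw [this]

/-- the set of all data -/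
def EE3 : Finset (ℤ × ℤ × ℤ) := {0, 1} ×ˢ {1, -1} ×ˢ {1, -1}

theorem card_EE3 : EE3.card = 8 := by decide

noncomputable def DD (h : ℕ) : Finset (ℤ × ℤ × ℤ × ℤ) := Finset.Icc (-(h : ℤ)) 0 ×ˢ EE3

theorem mem_DD {h : ℕ} {b : ℤ → ℤ} {w : ℕ → ℤ} {d : ℤ × ℤ × ℤ × ℤ} (hd : PD h b w d) :
    d ∈ DD h := by
  obtain ⟨h1, h2, h3, h4, h5, -⟩ := hd
  simp only [DD, EE3, Finset.mem_product, Finset.mem_Icc, Finset.mem_insert,
    Finset.mem_singleton]
  exact ⟨⟨h1, h2⟩, h3, h4, h5⟩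

theorem DD_bounds {h : ℕ} {d : ℤ × ℤ × ℤ × ℤ} (hd : d ∈ DD h) :
    -(h : ℤ) ≤ d.1 ∧ d.1 ≤ 0 ∧ (d.2.1 = 0 ∨ d.2.1 = 1) ∧
    (d.2.2.1 = 1 ∨ d.2.2.1 = -1) ∧ (d.2.2.2 = 1 ∨ d.2.2.2 = -1) := by
  simp only [DD, EE3, Finset.mem_product, Finset.mem_Icc, Finset.mem_insert,
    Finset.mem_singleton] at hd
  exact ⟨hd.1.1, hd.1.2, hd.2.1, hd.2.2.1, hd.2.2.2⟩

/-- bounded functions depending on the window of radius `l` -/
def BC (y : ℤ → ℤ) (l : ℕ) (C : ℝ) (g : ℤ → ℝ) : Prop :=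
  (∀ n, |g n| ≤ C) ∧ ∀ n n' : ℤ, (∀ i : ℤ, |i| ≤ l → y (n + i) = y (n' + i)) → g n = g n'

theorem BC.good (hA : S_ADM) {y : ℤ → ℤ} {x : ℕ → ℤ} {R : ℕ → ℕ} (hR : Rad y x R) {l : ℕ} {C : ℝ}
    {g : ℤ → ℝ} (hg : BC y l C g) : Good (fun i => Ret y (R i)) g := by
  have hC : 0 ≤ C := (abs_nonneg _).trans (hg.1 0)
  refine ⟨l, C + 1, by linarith, hA y x R hR l _ ⟨?_, ?_⟩ l le_rfl⟩
  · intro n
    rw [abs_div, abs_of_pos (by linarith : 0 < C + 1), div_le_one (by linarith)]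
    linarith [hg.1 n]
  · intro n n' hn
    rw [hg.2 n n' hn]

section
variable {y : ℤ → ℤ} {x : ℕ → ℤ} {R : ℕ → ℕ} {L : (ℤ → ℝ) → ℝ}

theorem L_zero (hA : S_ADM) (hR : Rad y x R) (hL : LinF (fun i => Ret y (R i)) L) :
    L (fun _ => 0) = 0 := by
  have hg : BC y 0 0 (fun _ => (0 : ℝ)) := ⟨fun n => by simp, fun _ _ _ => rfl⟩
  have := hL.smul 0 (fun _ => 0) (hg.good hA hR)
  simpa using this

theorem bc_sum {ι : Type} (S : Finset ι) (c : ι → ℝ) (g : ι → ℤ → ℝ) {l : ℕ}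
    (hg : ∀ i ∈ S, Cyl y l (g i)) : BC y l (∑ i ∈ S, |c i|) (fun m => ∑ i ∈ S, c i * g i m) := by
  refine ⟨?_, ?_⟩
  · intro n
    refine (Finset.abs_sum_le_sum_abs _ _).trans (Finset.sum_le_sum fun i hi => ?_)
    rw [abs_mul]
    have := (hg i hi).1 n
    have h0 := abs_nonneg (c i)
    nlinarith
  · intro n n' hn
    exact Finset.sum_congr rfl fun i hi => by rw [(hg i hi).2 n n' hn]

theorem L_sum (hA : S_ADM) (hR : Rad y x R) (hL : LinF (fun i => Ret y (R i)) L)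
    {ι : Type} (S : Finset ι) (c : ι → ℝ) (g : ι → ℤ → ℝ) {l : ℕ}
    (hg : ∀ i ∈ S, Cyl y l (g i)) :
    L (fun m => ∑ i ∈ S, c i * g i m) = ∑ i ∈ S, c i * L (g i) := by
  classical
  induction S using Finset.induction_on with
  | empty =>
    simp only [Finset.sum_empty]
    exact L_zero hA hR hL
  | insert a S ha ih =>
    have h1 : Cyl y l (g a) := hg a (Finset.mem_insert_self a S)
    have h2 : ∀ i ∈ S, Cyl y l (g i) := fun i hi => hg i (Finset.mem_insert_of_mem hi)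
    have hga : BC y l 1 (g a) := h1
    have hca : BC y l |c a| (fun m => c a * g a m) := by
      refine ⟨fun n => ?_, fun n n' hn => ?_⟩
      · rw [abs_mul]
        have := h1.1 n
        have h0 := abs_nonneg (c a)
        nlinarith
      · show c a * g a n = c a * g a n'
        rw [h1.2 n n' hn]
    have hS : BC y l (∑ i ∈ S, |c i|) (fun m => ∑ i ∈ S, c i * g i m) := bc_sum S c g h2
    have e1 : (fun m => ∑ i ∈ insert a S, c i * g i m) =
        fun m => (c a * g a m) + ∑ i ∈ S, c i * g i m := by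
      funext m
      rw [Finset.sum_insert ha]
    rw [e1, hL.add _ _ (hca.good hA hR) (hS.good hA hR), hL.smul _ _ (hga.good hA hR), ih h2,
      Finset.sum_insert ha]

end

open Classical in
/-- indicator of the data `d` -/
noncomputable def dl (h : ℕ) (b : ℤ → ℤ) (y : ℤ → ℤ) (d : ℤ × ℤ × ℤ × ℤ) (m : ℤ) : ℝ :=
  if dat h b y m = d then 1 else 0

theorem dl_cyl (h : ℕ) (b : ℤ → ℤ) (y : ℤ → ℤ) (d : ℤ × ℤ × ℤ × ℤ) : Cyl y h (dl h b y d) := by
  refine ⟨?_, ?_⟩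
  · intro n
    unfold dl
    split_ifs <;> simp
  · intro n n' hn
    have : dat h b y n = dat h b y n' := by
      apply dat_congr
      intro i hi
      apply hn
      rw [abs_of_nonneg (by positivity)]
      exact_mod_cast hi.le
    unfold dl
    rw [this]

theorem sum_dl {h : ℕ} {b : ℤ → ℤ} {y : ℤ → ℤ} (m : ℤ) (hp : PD h b (wd h y m) (dat h b y m))
    (c : ℤ × ℤ × ℤ × ℤ → ℝ) :
    ∑ d ∈ DD h, c d * dl h b y d m = c (dat h b y m) := by
  classical
  unfold dl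
  simp only [mul_ite, mul_one, mul_zero]
  rw [Finset.sum_ite_eq, if_pos (mem_DD hp)]

theorem proof_sm (hA : S_ADM) (hS : S_SMA) : S_SM := by
  intro y x R hR hy L V hL hV hN h b hD hP ε hε
  have hV0 : 0 ≤ V := by
    have h1 : Cyl y 0 (fun _ => (0 : ℝ)) := ⟨fun n => by simp, fun _ _ _ => rfl⟩
    exact (abs_nonneg _).trans (hV 0 _ h1)
  obtain ⟨H, hH⟩ := hD.cor (ε / (8 * (V ^ 2 + 1))) (by positivity)
  obtain ⟨l, hl⟩ := hN (ε / (128 * (H + 1) * (V + 1))) (by positivity)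
  set η := ε / (128 * (H + 1) * (V + 1)) with hη
  have hη0 : 0 < η := by positivity
  refine ⟨max l 1, fun K hK => ?_⟩
  have hhK : K ≤ h K := hD.mono.le_apply
  have hlK : l ≤ h K := (le_max_left l 1).trans (hK.trans hhK)
  have h1K : 1 ≤ h K := (le_max_right l 1).trans (hK.trans hhK)
  -- data
  have hdat : ∀ m : ℤ, PD (h K) (b K) (wd (h K) y m) (dat (h K) (b K) y m) :=
    fun m => dat_spec m (hP K m)
  set β : ℤ × ℤ × ℤ × ℤ → ℝ := fun d => L (dl (h K) (b K) y d) with hβ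
  have hβη : ∀ d, |β d| ≤ η := by
    intro d
    by_cases hd : ∃ m0, dat (h K) (b K) y m0 = d
    · obtain ⟨m0, hm0⟩ := hd
      apply hl m0 (h K) _ (dl_cyl _ _ _ _)
      intro m hm i hi
      have hmd : dat (h K) (b K) y m = d := by
        by_contra hne
        apply hm
        unfold dl
        rw [if_neg hne]
      have e1 := (hdat m).2.2.2.2.2 i (hi.trans_le hlK)
      have e2 := (hdat m0).2.2.2.2.2 i (hi.trans_le hlK)
      rw [wd, if_pos (hi.trans_le hlK)] at e1 e2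
      rw [e1, e2, hmd, hm0]
    · have : dl (h K) (b K) y d = fun _ => 0 := by
        funext m
        unfold dl
        rw [if_neg fun h' => hd ⟨m, h'⟩]
      show |L (dl (h K) (b K) y d)| ≤ η
      rw [this, L_zero hA hR hL]
      simpa using hη0.le
  have hβV : ∑ d ∈ DD (h K), |β d| ≤ V := by
    have e1 : ∑ d ∈ DD (h K), |β d| =
        L (fun m => ∑ d ∈ DD (h K), (SignType.sign (β d) : ℝ) * dl (h K) (b K) y d m) := by
      rw [L_sum hA hR hL _ _ _ (l := h K) (fun d _ => dl_cyl _ _ _ _)]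
      refine Finset.sum_congr rfl fun d _ => ?_
      rw [sign_mul_self]
    rw [e1]
    refine (le_abs_self _).trans (hV (h K) _ ⟨?_, ?_⟩)
    · intro m
      have e0 := sum_dl m (hdat m) (fun d => (SignType.sign (β d) : ℝ))
      show |∑ d ∈ DD (h K), (SignType.sign (β d) : ℝ) * dl (h K) (b K) y d m| ≤ 1
      rw [e0]
      rcases lt_trichotomy (β (dat (h K) (b K) y m)) 0 with h0 | h0 | h0
      · simp [sign_neg h0]
      · simp [h0]
      · simp [sign_pos h0]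
    · exact (bc_sum _ _ _ (fun d _ => dl_cyl _ _ _ _)).2
  -- coefficients
  set T : Finset ℤ := Finset.Icc (-(h K : ℤ)) (h K + 1) with hT
  set cc : ℤ → ℤ × ℤ × ℤ × ℤ → ℝ := fun τ d =>
    (if τ = d.1 then (d.2.2.1 : ℝ) else 0) + (if τ = d.1 + h K + d.2.1 then (d.2.2.2 : ℝ) else 0)
    with hcc
  set α : ℤ → ℝ := fun τ => ∑ d ∈ DD (h K), β d * cc τ d with hα
  have hval : ∀ n : ℕ, n < h K → L (fun m => (y (m + n) : ℝ)) =
      ∑ τ ∈ T, α τ * (b K (n - τ) : ℝ) := by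
    intro n hn
    set vv : ℤ × ℤ × ℤ × ℤ → ℝ := fun d =>
      (d.2.2.1 : ℝ) * b K (n - d.1) + (d.2.2.2 : ℝ) * b K (n - d.1 - h K - d.2.1) with hvv
    have e1 : (fun m => (y (m + n) : ℝ)) = fun m => ∑ d ∈ DD (h K), vv d * dl (h K) (b K) y d m := by
      funext m
      rw [sum_dl m (hdat m)]
      have e2 := (hdat m).2.2.2.2.2 n hn
      rw [wd, if_pos hn] at e2
      rw [e2, hvv]
      push_cast
      ring
    rw [e1, L_sum hA hR hL _ _ _ (l := h K) (fun d _ => dl_cyl _ _ _ _)]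
    have e3 : ∑ τ ∈ T, α τ * (b K (n - τ) : ℝ) =
        ∑ d ∈ DD (h K), β d * ∑ τ ∈ T, cc τ d * (b K (n - τ) : ℝ) := by
      simp only [hα, Finset.sum_mul, Finset.mul_sum]
      rw [Finset.sum_comm]
      refine Finset.sum_congr rfl fun d _ => Finset.sum_congr rfl fun τ _ => ?_
      ring
    rw [e3]
    refine Finset.sum_congr rfl fun d hd => ?_
    obtain ⟨hd1, hd2, hd3, hd4, hd5⟩ := DD_bounds hd
    have m1 : d.1 ∈ T := by
      rw [hT, Finset.mem_Icc]
      constructor <;> omega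
    have m2 : d.1 + h K + d.2.1 ∈ T := by
      rw [hT, Finset.mem_Icc]
      constructor <;> omega
    have e4 : ∑ τ ∈ T, cc τ d * (b K (n - τ) : ℝ) = vv d := by
      simp only [hcc, add_mul, ite_mul, zero_mul, Finset.sum_add_distrib]
      rw [Finset.sum_ite_eq' T d.1, Finset.sum_ite_eq' T (d.1 + h K + d.2.1), if_pos m1,
        if_pos m2, hvv]
      have e5 : (n : ℤ) - (d.1 + h K + d.2.1) = n - d.1 - h K - d.2.1 := by ring
      rw [e5]
    rw [e4]
    show vv d * β d = β d * vv d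
    ring
  have habs : ∀ τ : ℤ, ∀ d ∈ DD (h K), |cc τ d| ≤
      (if τ = d.1 then (1 : ℝ) else 0) + (if τ = d.1 + h K + d.2.1 then (1 : ℝ) else 0) := by
    intro τ d hd
    obtain ⟨hd1, hd2, hd3, hd4, hd5⟩ := DD_bounds hd
    have a1 : |(d.2.2.1 : ℝ)| = 1 := by
      rcases hd4 with h' | h' <;> rw [h'] <;> norm_num
    have a2 : |(d.2.2.2 : ℝ)| = 1 := by
      rcases hd5 with h' | h' <;> rw [h'] <;> norm_num
    refine (abs_add_le _ _).trans (add_le_add ?_ ?_)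
    · split_ifs
      · exact a1.le
      · simp
    · split_ifs
      · exact a2.le
      · simp
  have hαM : ∀ τ ∈ T, |α τ| ≤ 16 * η := by
    intro τ _
    have e1 : |α τ| ≤ ∑ d ∈ DD (h K), η * ((if τ = d.1 then (1 : ℝ) else 0) +
        (if τ = d.1 + h K + d.2.1 then (1 : ℝ) else 0)) := by
      refine (Finset.abs_sum_le_sum_abs _ _).trans (Finset.sum_le_sum fun d hd => ?_)
      rw [abs_mul]
      exact mul_le_mul (hβη d) (habs τ d hd) (abs_nonneg _) hη0.le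
    refine e1.trans ?_
    rw [← Finset.mul_sum, Finset.sum_add_distrib]
    have c1 : ∑ d ∈ DD (h K), (if τ = d.1 then (1 : ℝ) else 0) ≤ 8 := by
      unfold DD
      rw [Finset.sum_product_right]
      calc ∑ e ∈ EE3, ∑ t ∈ Finset.Icc (-(h K : ℤ)) 0, (if τ = t then (1 : ℝ) else 0)
          ≤ ∑ e ∈ EE3, (1 : ℝ) := by
            refine Finset.sum_le_sum fun e _ => ?_
            rw [Finset.sum_ite_eq]
            split_ifs <;> norm_num
        _ = 8 := by
            rw [Finset.sum_const, card_EE3]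
            norm_num
    have c2 : ∑ d ∈ DD (h K), (if τ = d.1 + h K + d.2.1 then (1 : ℝ) else 0) ≤ 8 := by
      unfold DD
      rw [Finset.sum_product_right]
      calc ∑ e ∈ EE3, ∑ t ∈ Finset.Icc (-(h K : ℤ)) 0,
            (if τ = t + h K + e.1 then (1 : ℝ) else 0)
          ≤ ∑ e ∈ EE3, (1 : ℝ) := by
            refine Finset.sum_le_sum fun e _ => ?_
            have : ∀ t ∈ Finset.Icc (-(h K : ℤ)) 0, (if τ = t + h K + e.1 then (1 : ℝ) else 0) =
                if τ - h K - e.1 = t then (1 : ℝ) else 0 := by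
              intro t _
              congr 1
              apply propext
              constructor <;> intro h' <;> omega
            rw [Finset.sum_congr rfl this, Finset.sum_ite_eq]
            split_ifs <;> norm_num
        _ = 8 := by
            rw [Finset.sum_const, card_EE3]
            norm_num
    nlinarith
  have hαV : ∑ τ ∈ T, |α τ| ≤ 2 * V := by
    have e1 : ∀ τ ∈ T, |α τ| ≤ ∑ d ∈ DD (h K), |β d| * ((if τ = d.1 then (1 : ℝ) else 0) +
        (if τ = d.1 + h K + d.2.1 then (1 : ℝ) else 0)) := by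
      intro τ _
      refine (Finset.abs_sum_le_sum_abs _ _).trans (Finset.sum_le_sum fun d hd => ?_)
      rw [abs_mul]
      exact mul_le_mul_of_nonneg_left (habs τ d hd) (abs_nonneg _)
    refine (Finset.sum_le_sum e1).trans ?_
    rw [Finset.sum_comm]
    have e2 : ∀ d ∈ DD (h K), ∑ τ ∈ T, |β d| * ((if τ = d.1 then (1 : ℝ) else 0) +
        (if τ = d.1 + h K + d.2.1 then (1 : ℝ) else 0)) ≤ 2 * |β d| := by
      intro d _
      rw [← Finset.mul_sum, Finset.sum_add_distrib, Finset.sum_ite_eq', Finset.sum_ite_eq']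
      have h0 := abs_nonneg (β d)
      have h2 : ((if d.1 ∈ T then (1 : ℝ) else 0) +
          (if d.1 + h K + d.2.1 ∈ T then (1 : ℝ) else 0)) ≤ 2 := by
        split_ifs <;> norm_num
      nlinarith
    refine (Finset.sum_le_sum e2).trans ?_
    rw [← Finset.mul_sum]
    linarith
  have key := hS (h K) H (b K) (ε / (8 * (V ^ 2 + 1))) (16 * η) (2 * V) T α (hD.bd K) (hD.supp K)
    (by positivity) (by positivity) (fun r hr => hH K r hr) hαM hαV
  have e1 : ∑ n ∈ Finset.range (h K), (L (fun m => (y (m + n) : ℝ))) ^ 2 =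
      ∑ n ∈ Finset.range (h K), (∑ τ ∈ T, α τ * (b K (n - τ) : ℝ)) ^ 2 := by
    refine Finset.sum_congr rfl fun n hn => ?_
    rw [hval n (Finset.mem_range.mp hn)]
  rw [e1]
  refine key.trans ?_
  have hh0 : (0 : ℝ) ≤ h K := Nat.cast_nonneg _
  have b1 : 2 * (H : ℝ) * (16 * η) * (2 * V) ≤ ε / 2 := by
    have : 2 * (H : ℝ) * (16 * η) * (2 * V) = (64 * H * V) * η := by ring
    rw [this, hη]
    rw [mul_div_assoc', div_le_div_iff₀ (by positivity) (by norm_num)]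
    have hHn : (0 : ℝ) ≤ H := Nat.cast_nonneg _
    have : 0 ≤ ε * (H + V + 1) := by positivity
    nlinarith
  have b2 : ε / (8 * (V ^ 2 + 1)) * (2 * V) ^ 2 ≤ ε / 2 := by
    rw [div_mul_eq_mul_div, div_le_div_iff₀ (by positivity) (by norm_num)]
    nlinarith
  have : 2 * (H : ℝ) * (16 * η) * (2 * V) + ε / (8 * (V ^ 2 + 1)) * (2 * V) ^ 2 ≤ ε := by linarith
  calc (h K : ℝ) * (2 * H * (16 * η) * (2 * V) + ε / (8 * (V ^ 2 + 1)) * (2 * V) ^ 2)
      ≤ h K * ε := mul_le_mul_of_nonneg_left this hh0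
    _ = ε * h K := by ring

end Pool.Agent.W741.UR
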